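import Mathlib
import Pool.Agent.Lib.P0c8ca5Kk.Kzg
import Pool.Agent.Lib.P0c8ca5Ku.Le

/-!
# Blocks with abelian defect groups and small inertial index

Let `p` be any prime, `Γ / G` a `p`-group and `B` a `Γ`-invariant block of `G` with idempotent `e`
and abelian defect groups; `e` is also the idempotent of the only block of `Y` over `B` if
`G ≤ Y ≤ Γ`. Let `G ≤ N ⊴ H ≤ Γ`. If the inertial index of the block `e` of `G` is less than `p`,
or if the inertial index of the block `e` of `Y` is less than `p` for all `Y` with `G ≤ Y ≤ H` and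
`N Y = H`, then Navarro's equality holds for `(N, H, e)`.

* `N = G`: Navarro's equality for `(G, H, B)` if the inertial index of the block `e` of `H` is less
  than `p`.
* `N = H`: the blockwise weight conjecture for the block `e` of `H` if the inertial index of `B` is
  less than `p`.
-/

namespace Pool.Agent.Results.MP_0c8ca5_al.AbelianSmallIndex

open Pool.Agent.Lib.P0c8ca5

universe u v

/-- The inertial group: the elements of `Y` that normalize `P` and fix `f`. -/
def Inertial {k : Type v} [Field k] {Γ : Type u} [Group Γ] (Y P : Subgroup Γ)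
    (f : MonoidAlgebra k Γ) : Subgroup Γ where
  carrier := {g | g ∈ Y ∧ g ∈ Subgroup.normalizer (P : Set Γ) ∧
    ∀ x : Γ, f.coeff (g * x * g⁻¹) = f.coeff x}
  mul_mem' := by
    rintro a b ⟨ha, ha1, ha2⟩ ⟨hb, hb1, hb2⟩
    refine ⟨mul_mem ha hb, mul_mem ha1 hb1, fun x => ?_⟩
    rw [← hb2 x, ← ha2 (b * x * b⁻¹)]
    congr 1
    group
  one_mem' := ⟨one_mem _, one_mem _, fun x => by simp⟩
  inv_mem' := by
    rintro a ⟨ha, ha1, ha2⟩
    refine ⟨inv_mem ha, inv_mem ha1, fun x => ?_⟩
    rw [← ha2 (a⁻¹ * x * a⁻¹⁻¹)]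
    congr 1
    group

/-- The inertial index: the index of `P C_Y(P)` in the inertial group. -/
noncomputable def index {k : Type v} [Field k] {Γ : Type u} [Group Γ] (Y P : Subgroup Γ)
    (f : MonoidAlgebra k Γ) : ℕ :=
  (P ⊔ (Y ⊓ Subgroup.centralizer (P : Set Γ))).relIndex (Inertial Y P f)

/-- The inertial index of the block of `Y` with idempotent `e` is less than `p`: it is so for a
defect group `P` and a block `f` of the centralizer of `P` in `Y` with `Br_P(e) f = f`. (All such
pairs are conjugate in `Y`.) -/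
def SmallIndex (p : ℕ) {k : Type v} [Field k] {Γ : Type u} [Group Γ] (Y : Subgroup Γ)
    (e : MonoidAlgebra k Γ) : Prop :=
  ∃ (P : Subgroup Γ) (f : MonoidAlgebra k Γ), IsDefectGroup p Y e P ∧
    IsBlock (Y ⊓ Subgroup.centralizer (P : Set Γ)) f ∧
    resS (Subgroup.centralizer (P : Set Γ) : Set Γ) e * f = f ∧ index Y P f < p

theorem inertial_eq {k : Type v} [Field k] {Γ : Type u} [Group Γ] (G D : Subgroup Γ)
    (f : MonoidAlgebra k Γ) : Inertial G D f = G ⊓ Ex.St D f := by
  ext g
  have key : (∀ x : Γ, f.coeff (g * x * g⁻¹) = f.coeff x) ↔ cj g f = f := by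
    constructor
    · intro h
      ext x
      rw [coeff_cj, ← h (g⁻¹ * x * g)]
      congr 1
      group
    · intro h x
      conv_lhs => rw [← h]
      rw [coeff_cj]
      congr 1
      group
  constructor
  · rintro ⟨h1, h2, h3⟩
    exact ⟨h1, h2, key.1 h3⟩
  · rintro ⟨h1, h2, h3⟩
    exact ⟨h1, h2, key.2 h3⟩

/-- **Navarro's equality** for `(N, H, e)`, `G ≤ N ⊴ H`, for a block `e` of `G` with abelian defect
groups: if the inertial index of the block `e` of `G` is less than `p`, or if the inertial indices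
of the block `e` of the groups `Y` between `G` and `H` with `N Y = H` are less than `p`. -/
theorem result (p : ℕ) [Fact p.Prime] (k : Type v) [Field k] [IsAlgClosed k]
    [CharP k p] (Γ : Type u) [Group Γ] [Finite Γ] (G : Subgroup Γ) [G.Normal]
    (hΓ : IsPGroup p (Γ ⧸ G)) (e : MonoidAlgebra k Γ) (he : IsBlock G e)
    (hinv : ∀ g x : Γ, e.coeff (g * x * g⁻¹) = e.coeff x)
    (D : Subgroup Γ) (hD : IsDefectGroup p G e D) (hcom : ∀ x ∈ D, ∀ y ∈ D, x * y = y * x)
    (N H : Subgroup Γ) (hGN : G ≤ N) (hNH : N ≤ H) (hn : H ≤ Subgroup.normalizer (N : Set Γ))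
    (hsmall : SmallIndex p G e ∨ ∀ Y, G ≤ Y → Y ≤ H → N ⊔ Y = H → SmallIndex p Y e) :
    NavarroEq p N H e := by
  classical
  have : Fintype Γ := Fintype.ofFinite Γ
  have hinv' : InvBy ⊤ e := fun g _ x => hinv g x
  have hp' : ∀ x : Γ, ∃ n : ℕ, x ^ p ^ n ∈ G := by
    intro x
    obtain ⟨n, hn⟩ := hΓ (QuotientGroup.mk x)
    refine ⟨n, ?_⟩
    rwa [← QuotientGroup.mk_pow, QuotientGroup.eq_one_iff] at hn
  -- the conjugates of `D` are abelian
  have hab : ∀ D', IsDefectGroup p G e D' → ∀ x ∈ D', ∀ y ∈ D', x * y = y * x := by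
    intro D' hD'
    obtain ⟨g, -, rfl⟩ := Kk.KybAux.defect_conjX he hD hD'
    intro x hx y hy
    rw [mem_cg] at hx hy
    have h1 := hcom _ hx _ hy
    calc x * y = g * ((g⁻¹ * x * g) * (g⁻¹ * y * g)) * g⁻¹ := by group
      _ = g * ((g⁻¹ * y * g) * (g⁻¹ * x * g)) * g⁻¹ := by rw [h1]
      _ = y * x := by group
  rcases hsmall with ⟨D', f, h4, h1, h3, h2⟩ | hall
  · have hcom' := hab D' h4
    have h5 : D' ⊔ (G ⊓ Subgroup.centralizer (D' : Set Γ))
        = G ⊓ Subgroup.centralizer (D' : Set Γ) :=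
      sup_eq_right.2 (le_inf h4.le fun x hx => Subgroup.mem_centralizer_iff.2
        fun y hy => hcom' y hy x hx)
    rw [index, inertial_eq, h5] at h2
    have h6 : (Ex.CD D').relIndex (G ⊓ Ex.St D' f)
        = (G ⊓ Subgroup.centralizer (D' : Set Γ)).relIndex (G ⊓ Ex.St D' f) := by
      rw [← Subgroup.inf_relIndex_right (Ex.CD D'),
        ← Subgroup.inf_relIndex_right (G ⊓ Subgroup.centralizer (D' : Set Γ))]
      congr 1
      ext x
      constructor
      · rintro ⟨h5, h6⟩
        exact ⟨⟨h6.1, h5⟩, h6⟩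
      · rintro ⟨h5, h6⟩
        exact ⟨h5.2, h6⟩
    rw [← h6] at h2
    exact Ku.navarro_all_lt' G hΓ he hinv' h4 hcom' h1 h3 h2 hGN hNH hn
  · refine Kk.nav_of_suppl hGN hNH hn hp' he hinv' fun Y hGY hYH hNY => ?_
    obtain ⟨P, f, hP, h1, h3, h2⟩ := hall Y hGY hYH hNY
    rw [index, inertial_eq] at h2
    -- `P ∩ G` is abelian
    have hbr : HasBr (P ⊓ G) e := by
      obtain ⟨x, hx, hxe⟩ := hP.br
      exact ⟨x, Subgroup.centralizer_le (inf_le_left : P ⊓ G ≤ P) hx, hxe⟩
    obtain ⟨D', hD', hle⟩ := exists_defect (p := p) (N := G) (P := P ⊓ G) inf_le_right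
      (hP.isPGroup.to_le inf_le_left) hbr
    exact Kk.nav_indX hGY (fun x _ => mem_norm_of_normal G x) (fun x _ => hp' x) he
      (hinv'.mono le_top) hP (fun x hx y hy => hab D' hD' x (hle hx) y (hle hy)) h1 h3 h2

end Pool.Agent.Results.MP_0c8ca5_al.AbelianSmallIndex
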