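import Mathlib
import Pool.Agent.Lib.P0c8ca5Y.LcR4
import Pool.Agent.Lib.P0c8ca5X.FinN

/-!
# Navarro's conjecture is reduced to the weight conjecture for almost quasi-simple groups

`G` is a normal subgroup of the finite group `Γ` with `Γ / G` a `p`-group and `B` is a `Γ`-invariant
block of `G` with idempotent `e`, which is also the idempotent of a block of every intermediate group.

A block `b` of `L` is good (`Good`) if `L` has a quasi-simple normal subgroup `S` such that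
* `C_L(S) = Z(L)`, a cyclic `p'`-group,
* `L / (S Z(L))` is a nilpotent `p'`-group generated by two elements,
* `L / N` is abelian if `S ≤ N ⊴ L` and `b` is supported on `N`,
* `b` is faithful, covers only one block of every normal subgroup of `L`, and its defect groups are
  not cyclic.

`AqsCond` is the following condition on a subgroup `K` and a set `𝓔` of subgroups of `Γ`: `K` has a normal
subgroup `M` with `K / M` `p`-solvable such that the blockwise Alperin weight conjecture holds for all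
good blocks `b` such that each defect group `D` of `b` is over `E ∩ M` for some `E ∈ 𝓔` (`Over`): `L` has a
central subgroup `Z` of order prime to `p` such that `L / Z` is the image of a subgroup `J` of `K`, and
`D Z / Z` is contained in the image of `J ∩ E ∩ M`.

(1) Let `G ≤ H ≤ Γ`.  Navarro's equality holds for `(G, H, B)` if for every `p`-subgroup
`Q = O_p(N_H(Q))` with `G Q = H` that is contained in a defect group of the block `e` of `Γ` `AqsCond`
holds for `N_G(Q)` and the defect groups `E ≥ Q` of the block `e` of `Γ`.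
(2) Navarro's equality holds for all `(N, H, b)` with `G ≤ N ⊴ H ≤ Γ` and `b` the block of `N`
covering `B` if `AqsCond` holds for `G` and the defect groups of `B`.
(3) Navarro's conjecture is equivalent to the blockwise Alperin weight conjecture for the good blocks.

No consequence of the classification of the finite simple groups is used.
-/

namespace Pool.Agent.Results.MP_0c8ca5_al.AlmostQuasiSimple

open Pool.Agent.Lib.P0c8ca5 MonoidAlgebra

universe u v

/-- `Γ / G` is a `p`-group, and `e` is the idempotent of a `Γ`-invariant block of `G`. -/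
structure InvBlock (p : ℕ) {k : Type*} [Field k] {Γ : Type*} [Group Γ] (G : Subgroup Γ)
    [G.Normal] (e : MonoidAlgebra k Γ) : Prop where
  pgroup : IsPGroup p (Γ ⧸ G)
  block : IsBlock G e
  inv : ∀ g x : Γ, e.coeff (g * x * g⁻¹) = e.coeff x

/-- `E` is quasi-simple: it is nontrivial and perfect, and every normal subgroup of `E` is central in
`E` or equal to `E`. -/
structure QuasiSimple {L : Type*} [Group L] (E : Subgroup L) : Prop where
  ne : E ≠ ⊥
  perfect : ⁅E, E⁆ = E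
  simple : ∀ N : Subgroup L, N ≤ E → (∀ g ∈ E, ∀ x ∈ N, g * x * g⁻¹ ∈ N) →
    (∀ x ∈ N, ∀ y ∈ E, x * y = y * x) ∨ N = E

/-- `b` is the idempotent of a good block of `L`, an almost quasi-simple group with the quasi-simple
normal subgroup `S`. -/
structure Good (p : ℕ) {k : Type*} [Field k] {L : Type*} [Group L] [Finite L] (S : Subgroup L)
    (b : MonoidAlgebra k L) : Prop where
  normal : S.Normal
  quasiSimple : QuasiSimple S
  centralizer : Subgroup.centralizer (S : Set L) = Subgroup.center L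
  cyclic : IsCyclic (Subgroup.center L)
  center : ¬ p ∣ Nat.card (Subgroup.center L)
  index : ¬ p ∣ (S ⊔ Subgroup.center L).index
  nilpotent : ∃ _ : (S ⊔ Subgroup.center L).Normal,
    Group.IsNilpotent (L ⧸ (S ⊔ Subgroup.center L))
  two : ∃ x y : L, S ⊔ Subgroup.center L ⊔ Subgroup.closure {x, y} = ⊤
  block : IsBlock ⊤ b
  abelian : ∀ N : Subgroup L, N.Normal → S ≤ N → (∀ x, b.coeff x ≠ 0 → x ∈ N) →
    ∀ x y : L, x * y * x⁻¹ * y⁻¹ ∈ N
  prim : ∀ N : Subgroup L, N.Normal → ∃! c : MonoidAlgebra k L, IsBlock N c ∧ b * c ≠ 0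
  faithful : ∀ x : L, single x (1 : k) * b = b → x = 1
  defect : ∃ D, IsDefectGroup p ⊤ b D ∧ ¬ IsCyclic D

/-- `L` has a central subgroup `Z` of order prime to `p` such that `L / Z` is the image of a subgroup
`J` of `H`, and `D Z / Z` is contained in the image of `J ∩ E`. -/
def Over (p : ℕ) {L : Type*} [Group L] (D : Subgroup L) {Γ : Type*} [Group Γ]
    (H E : Subgroup Γ) : Prop :=
  ∃ (Z : Subgroup L) (_ : Z.Normal) (J : Subgroup Γ) (f : ↥J →* L ⧸ Z),
    Z ≤ Subgroup.center L ∧ ¬ p ∣ Nat.card Z ∧ J ≤ H ∧ Function.Surjective f ∧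
    D.map (QuotientGroup.mk' Z) ≤ (E.subgroupOf J).map f

/-- `Q = O_p(N_H(Q))`: the `p`-group `Q ≤ H` contains all normal `p`-subgroups of `N_H(Q)`. -/
def IsRadicalIn (p : ℕ) {Γ : Type*} [Group Γ] (H Q : Subgroup Γ) : Prop :=
  IsPGroup p Q ∧ Q ≤ H ∧ ∀ R : Subgroup Γ, IsPGroup p R →
    R ≤ H ⊓ Subgroup.normalizer (Q : Set Γ) →
    H ⊓ Subgroup.normalizer (Q : Set Γ) ≤ Subgroup.normalizer (R : Set Γ) → R ≤ Q

/-- The condition on `K` and `𝓔`. -/
def AqsCond (p : ℕ) (k : Type v) [Field k] {Γ : Type u} [Group Γ] (K : Subgroup Γ)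
    (𝓔 : Set (Subgroup Γ)) : Prop :=
  ∃ M : Subgroup Γ, M ≤ K ∧ (∀ h ∈ K, ∀ x ∈ M, h * x * h⁻¹ ∈ M) ∧ Ps.PSolv p ↥(sec K M) ∧
    ∀ (L : Type u) [Group L] [Finite L] (S : Subgroup L) (b : MonoidAlgebra k L), Good p S b →
      (∀ D : Subgroup L, IsDefectGroup p ⊤ b D → ∃ E ∈ 𝓔, Over p D K (E ⊓ M)) →
      NavarroEq p ⊤ ⊤ b

theorem le_norm {Γ : Type*} [Group Γ] {M H : Subgroup Γ}
    (h : ∀ g ∈ H, ∀ x ∈ M, g * x * g⁻¹ ∈ M) : H ≤ Subgroup.normalizer (M : Set Γ) := by
  intro g hg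
  rw [Subgroup.mem_normalizer_iff]
  intro x
  refine ⟨h g hg x, fun hx => ?_⟩
  have h1 := h g⁻¹ (H.inv_mem hg) _ hx
  have e1 : g⁻¹ * (g * x * g⁻¹) * g⁻¹⁻¹ = x := by group
  rwa [e1] at h1

theorem qs_of {L : Type*} [Group L] {E : Subgroup L} (h : Jj.QS E) : QuasiSimple E := by
  refine ⟨h.ne, h.perf, fun N hN hn => ?_⟩
  rcases h.qs N hN (le_norm hn) with h1 | h1
  · left
    intro x hx y hy
    exact (Subgroup.mem_centralizer_iff.1 (h1 hx) y hy).symm
  · exact Or.inr h1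

theorem good_of {p : ℕ} [Fact p.Prime] {k : Type*} [Field k] {L : Type*} [Group L] [Finite L]
    {b : MonoidAlgebra k L} (h : Reduced4 p b) (hq : Gg.AqsN p L)
    (hD : ∃ D, IsDefectGroup p ⊤ b D ∧ ¬ IsCyclic D) : ∃ S : Subgroup L, Good p S b := by
  obtain ⟨S, hS, hn, hc, hp, hxy, hnil⟩ := hq
  have hR : Jj.Rd p L := ⟨h.core, h.central⟩
  exact ⟨S, hn, qs_of hS, hc, h.cyclic, hR.not_dvd_center, hp, hnil, hxy, h.block,
    fun N hN hSN hb => Gg.comm_of_two h hn hp hN hSN hb, h.prim, h.faithful, hD⟩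

theorem over_of {p : ℕ} {L : Type u} [Group L] {D : Subgroup L} {Γ : Type u} [Group Γ]
    {H E : Subgroup Γ} (h : Fg.CPair p D (E.subgroupOf H)) : Over p D H E := by
  obtain ⟨L', _, π, hπ, hπZ, hπp, J, f, hf, hD⟩ := h
  let ε : L' ≃* L ⧸ π.ker := (QuotientGroup.quotientKerEquivOfSurjective π hπ).symm
  have hε : ∀ x, ε (π x) = QuotientGroup.mk' π.ker x := by
    intro x
    rw [MulEquiv.symm_apply_eq]
    rfl
  let κ : ↥(J.map H.subtype) ≃* ↥J := (J.equivMapOfInjective _ H.subtype_injective).symm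
  refine ⟨π.ker, inferInstance, J.map H.subtype, ε.toMonoidHom.comp (f.comp κ.toMonoidHom),
    hπZ, hπp, ?_, ε.surjective.comp (hf.comp κ.surjective), ?_⟩
  · rintro _ ⟨x, _, rfl⟩
    exact x.2
  · rintro _ ⟨d, hd, rfl⟩
    obtain ⟨j, hj, hjd⟩ := hD ⟨d, hd, rfl⟩
    have h1 := Subgroup.mem_subgroupOf.1 (Subgroup.mem_subgroupOf.1 hj)
    refine ⟨κ.symm j, ?_, ?_⟩
    · exact Subgroup.mem_subgroupOf.2 h1
    · change ε (f (κ (κ.symm j))) = _
      rw [κ.apply_symm_apply, hjd, hε]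

theorem AqsCond.lib {p : ℕ} [Fact p.Prime] {k : Type v} [Field k] [IsAlgClosed k] [CharP k p]
    {Γ : Type u} [Group Γ] {K : Subgroup Γ} {𝓔 : Set (Subgroup Γ)} (h : AqsCond p k K 𝓔) :
    Yy.RedCond4 p k K 𝓔 := by
  obtain ⟨M, h1, h2, h3, h4⟩ := h
  refine Gg.RedCondN.red (Gg.stepA p k) (Gg.stepB p k)
    ⟨M, h1, le_norm h2, h3, fun L _ _ b hb hq hnc hD => ?_⟩
  obtain ⟨S, hS⟩ := good_of hb hq hnc
  apply h4 L S b hS
  intro D hD'
  obtain ⟨E, hE, h5⟩ := hD D hD'
  exact ⟨E, hE, over_of h5⟩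

theorem local_one {p : ℕ} [Fact p.Prime] {k : Type v} [Field k] [IsAlgClosed k] [CharP k p]
    {Γ : Type u} [Group Γ] [Finite Γ] (G : Subgroup Γ) [G.Normal] (e : MonoidAlgebra k Γ)
    (he : InvBlock p G e) (H : Subgroup Γ) (hGH : G ≤ H)
    (hyp : ∀ Q : Subgroup Γ, IsRadicalIn p H Q → G ⊔ Q = H →
      (∃ E, IsDefectGroup p ⊤ e E ∧ Q ≤ E) →
      Yy.RedCond4 p k (G ⊓ Subgroup.normalizer (Q : Set Γ))
        {E | IsDefectGroup p ⊤ e E ∧ Q ≤ E}) :
    NavarroEq p G H e := by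
  have : Fintype Γ := Fintype.ofFinite Γ
  have hinv : InvBy ⊤ e := fun g _ x => he.inv g x
  have hp : ∀ x : Γ, ∃ n : ℕ, x ^ p ^ n ∈ G := by
    intro x
    obtain ⟨n, hn⟩ := he.pgroup (QuotientGroup.mk x)
    refine ⟨n, ?_⟩
    rwa [← QuotientGroup.mk_pow, QuotientGroup.eq_one_iff] at hn
  apply Ps.navarro_loc_rad inferInstance hGH hp he.block hinv
  intro Q hQH hQp hGQ hrad hQE K hCK hKN c hsub hcen hcC hcinv hcc
  exact Yy.weq_redCond4 hQp hKN hCK hsub hcen hcC hcinv hcc (hyp Q ⟨hQp, hQH, hrad⟩ hGQ hQE)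

theorem local_all {p : ℕ} [Fact p.Prime] {k : Type v} [Field k] [IsAlgClosed k] [CharP k p]
    {Γ : Type u} [Group Γ] [Finite Γ] (G : Subgroup Γ) [G.Normal] (e : MonoidAlgebra k Γ)
    (he : InvBlock p G e) (hyp : AqsCond p k G {E | IsDefectGroup p G e E}) :
    ∀ N H : Subgroup Γ, G ≤ N → N ≤ H → (∀ h ∈ H, ∀ n ∈ N, h * n * h⁻¹ ∈ N) →
      ∀ b : MonoidAlgebra k Γ, IsBlock N b → b * e ≠ 0 → NavarroEq p N H b := by
  have : Fintype Γ := Fintype.ofFinite Γ
  have hinv : InvBy ⊤ e := fun g _ x => he.inv g x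
  have hp : ∀ x : Γ, ∃ n : ℕ, x ^ p ^ n ∈ G := by
    intro x
    obtain ⟨n, hn⟩ := he.pgroup (QuotientGroup.mk x)
    refine ⟨n, ?_⟩
    rwa [← QuotientGroup.mk_pow, QuotientGroup.eq_one_iff] at hn
  have h1 : ∀ H, G ≤ H → NavarroEq p G H e := by
    intro H hGH
    apply local_one G e he H hGH
    intro Q _ _ _
    refine hyp.lib.mono inf_le_left ?_
    rintro E ⟨hE, _⟩
    obtain ⟨E', h5, h6⟩ := exists_defect (p := p) (N := G) (P := G ⊓ E) inf_le_left
      (hE.isPGroup.to_le inf_le_right) (RedAux.hasBr_mono inf_le_right hE.br)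
    exact ⟨E', h5, h6⟩
  have key := equivariant_iff (p := p) hp he.block hinv
  intro N H hGN hNH hn b hb hbe
  have hbe' : b = e := by
    rcases hb.eq_or_mul_eq_zero (isBlock_up hGN hp he.block hinv) with h | h
    · exact h
    · exact absurd h hbe
  rw [hbe']
  exact key.2 (key.1.1 h1) N H hGN hNH (le_norm hn)

theorem result {p : ℕ} [Fact p.Prime] {k : Type v} [Field k] [IsAlgClosed k] [CharP k p] :
    (∀ (Γ : Type u) [Group Γ] [Finite Γ] (G : Subgroup Γ) [G.Normal] (e : MonoidAlgebra k Γ),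
      InvBlock p G e →
      (∀ H : Subgroup Γ, G ≤ H →
        (∀ Q : Subgroup Γ, IsRadicalIn p H Q → G ⊔ Q = H →
          (∃ E, IsDefectGroup p ⊤ e E ∧ Q ≤ E) →
          AqsCond p k (G ⊓ Subgroup.normalizer (Q : Set Γ))
            {E | IsDefectGroup p ⊤ e E ∧ Q ≤ E}) →
        NavarroEq p G H e) ∧
      (AqsCond p k G {E | IsDefectGroup p G e E} →
        ∀ N H : Subgroup Γ, G ≤ N → N ≤ H → (∀ h ∈ H, ∀ n ∈ N, h * n * h⁻¹ ∈ N) →
          ∀ b : MonoidAlgebra k Γ, IsBlock N b → b * e ≠ 0 → NavarroEq p N H b)) ∧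
    ((∀ (Γ : Type u) [Group Γ] [Finite Γ] (G : Subgroup Γ) [G.Normal] (e : MonoidAlgebra k Γ),
        InvBlock p G e → NavarroEq p G ⊤ e) ↔
      ∀ (L : Type u) [Group L] [Finite L] (S : Subgroup L) (b : MonoidAlgebra k L), Good p S b →
        NavarroEq p ⊤ ⊤ b) := by
  refine ⟨fun Γ _ _ G _ e he => ⟨fun H hGH hyp => local_one G e he H hGH
    fun Q h1 h2 h3 => (hyp Q h1 h2 h3).lib, local_all G e he⟩, ?_, ?_⟩
  · intro h L _ _ S b hb
    refine h L ⊤ b ⟨?_, hb.block, fun g x => hb.block.invBy g (Subgroup.mem_top g) x⟩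
    intro x
    refine ⟨0, ?_⟩
    obtain ⟨y, rfl⟩ := QuotientGroup.mk_surjective x
    rw [← QuotientGroup.mk_pow, QuotientGroup.eq_one_iff]
    exact Subgroup.mem_top _
  · intro h Γ _ _ G _ e he
    refine local_all G e he ⟨G, le_rfl, ?_, Yy.psolv_sec_self p G,
      fun L _ _ S b hb _ => h L S b hb⟩ G ⊤ le_rfl le_top ?_ e
      he.block (by rw [he.block.idem]; exact he.block.ne_zero)
    · intro g hg x hx
      exact G.mul_mem (G.mul_mem hg hx) (G.inv_mem hg)
    · intro g _ n hn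
      exact Subgroup.Normal.conj_mem inferInstance n hn g

end Pool.Agent.Results.MP_0c8ca5_al.AlmostQuasiSimple
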