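import Mathlib
import Pool.Agent.Lib.P0c8ca5Kk.Kzf
import Pool.Agent.Lib.P0c8ca5Ku.Lu

/-!
# Blocks with large abelian defect groups

Let `p` be odd, `Γ / G` a `p`-group and `B` a `Γ`-invariant block of `G` with idempotent `e` and
abelian defect group `D`; `e` is also the idempotent of the only block of `Y` over `B` if
`G ≤ Y ≤ Γ`. Let `V = [D, E_G]`, where `E_G` is the inertial quotient of `B`. Let `P` be a defect
group of the block `e` of `Y`, let `E` be the inertial quotient of this block, `Z = Z(P) ∩ G` and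
`W = [Z, E]`. The block is called large (`Large`) if one of the following holds.

* `AnyE`: all cyclic factors of `W` have order greater than `p ^ n`, and `W` has rank at most `2`
  and `2 ≤ n`, or `V` has rank at most `r`, `W` has rank at most `s`,
  `(r - 2) * (s * (s - 1) / 2) + 3 ≤ n` and `s * (s + 1) / 2 ≤ n`. There is no condition on `E`.
* `CyclicStabs`: `E` is faithful on the `p ^ n`-th powers of `Z`, `1 ≤ n`, `|E| < p ^ (n + 1)`, and
  the stabilizer in `E` of each element of order `p` of `W` is cyclic.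
* `SmallLines`: `E` is faithful on the `p ^ n`-th powers of `Z`, `1 ≤ n`, `|E| < p ^ (n + 1)`, and
  for each element `z` of order `p` of `W` the stabilizer of `z` in `E` is trivial or the normalizer
  in `E` of the group generated by `z` has order less than `p - 1`.
* `SmallStabs`: `E` is faithful on the `p ^ n`-th powers of `Z`, `|E| ≤ p ^ n`, `V` has rank at most
  `r`, the stabilizer in `E` of each element of order `p` of `W` has order at most `p ^ j`, and
  `(r - 2) * j + 3 ≤ n`.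

Let `G ≤ N ⊴ H ≤ Γ`. If the block `e` of `Y` is large for all `Y` with `G ≤ Y ≤ H` and `N Y = H`,
then Navarro's equality holds for `(N, H, e)`. For `N = G` the only such `Y` is `H`. For
`N = H = G` this is the blockwise weight conjecture for `B`.
-/

namespace Pool.Agent.Results.MP_0c8ca5_al.LargeAbelian

open Pool.Agent.Lib.P0c8ca5

universe u v

section
variable {k : Type v} [Field k] {Γ : Type u} [Group Γ]

/-- The inertial group: the elements of `Y` that normalize `P` and fix `f`. -/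
def Inertial (Y P : Subgroup Γ) (f : MonoidAlgebra k Γ) : Subgroup Γ where
  carrier := {g | g ∈ Y ∧ g ∈ Subgroup.normalizer (P : Set Γ) ∧
    ∀ x : Γ, f.coeff (g * x * g⁻¹) = f.coeff x}
  mul_mem' := by
    rintro a b ⟨ha, ha1, ha2⟩ ⟨hb, hb1, hb2⟩
    refine ⟨mul_mem ha hb, mul_mem ha1 hb1, fun x => ?_⟩
    rw [← hb2 x, ← ha2 (b * x * b⁻¹)]
    congr 1
    group
  one_mem' := ⟨one_mem _, one_mem _, fun x => by simp⟩
  inv_mem' := by
    rintro a ⟨ha, ha1, ha2⟩
    refine ⟨inv_mem ha, inv_mem ha1, fun x => ?_⟩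
    rw [← ha2 (a⁻¹ * x * a⁻¹⁻¹)]
    congr 1
    group

/-- `P C_Y(P)`. The inertial quotient `E` is the quotient of `Inertial Y P f` by this group. -/
def PC (Y P : Subgroup Γ) : Subgroup Γ := P ⊔ (Y ⊓ Subgroup.centralizer (P : Set Γ))

/-- The order of `E`. -/
noncomputable def index (Y P : Subgroup Γ) (f : MonoidAlgebra k Γ) : ℕ :=
  (PC Y P).relIndex (Inertial Y P f)

/-- The elements of the inertial group that centralize `z`; the stabilizer of `z` in `E` is the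
quotient of this group by `PC Y P` if `z` is in the center of `P`. -/
def Stab (Y P : Subgroup Γ) (f : MonoidAlgebra k Γ) (z : Γ) : Subgroup Γ :=
  Inertial Y P f ⊓ Subgroup.centralizer ({z} : Set Γ)

/-- The elements of the inertial group that normalize the group generated by `z`; the normalizer of
this group in `E` is the quotient by `PC Y P` if `z` is in the center of `P`. -/
def LineStab (Y P : Subgroup Γ) (f : MonoidAlgebra k Γ) (z : Γ) : Subgroup Γ :=
  Inertial Y P f ⊓ Subgroup.normalizer (Subgroup.zpowers z : Set Γ)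

/-- `Z(P) ∩ G` -/
def Zen (G P : Subgroup Γ) : Subgroup Γ := P ⊓ G ⊓ Subgroup.centralizer (P : Set Γ)

/-- The rank of the abelian `p`-group `D` is at most `r`: there are at most `p ^ r` elements `x` of
`D` with `x ^ p = 1`. -/
def RankLe (p : ℕ) (D : Subgroup Γ) (r : ℕ) : Prop :=
  Nat.card {x : Γ // x ∈ D ∧ x ^ p = 1} ≤ p ^ r

/-- `[Z, E]`, `Z = Z(P) ∩ G`: generated by the commutators of the elements of `Z` and of the inertial
group. -/
def ZenE (G Y P : Subgroup Γ) (f : MonoidAlgebra k Γ) : Subgroup Γ := ⁅Zen G P, Inertial Y P f⁆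

/-- `E` acts faithfully on the `p ^ n`-th powers of `Z(P) ∩ G`. -/
def Faithful (p : ℕ) (G Y P : Subgroup Γ) (f : MonoidAlgebra k Γ) (n : ℕ) : Prop :=
  ∀ g ∈ Inertial Y P f, (∀ z ∈ Zen G P, g * z ^ p ^ n = z ^ p ^ n * g) → g ∈ PC Y P

/-- Large, without a condition on `E`. -/
def AnyE (p : ℕ) (G Y P V : Subgroup Γ) (f : MonoidAlgebra k Γ) : Prop :=
  ∃ n : ℕ, (∀ z ∈ ZenE G Y P f, z ^ p = 1 → ∃ y ∈ ZenE G Y P f, y ^ p ^ n = z) ∧
    ((RankLe p (ZenE G Y P f) 2 ∧ 2 ≤ n) ∨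
      ∃ r s : ℕ, RankLe p V r ∧ RankLe p (ZenE G Y P f) s ∧
        (r - 2) * (s * (s - 1) / 2) + 3 ≤ n ∧ s * (s + 1) / 2 ≤ n)

/-- Large, with cyclic stabilizers. -/
def CyclicStabs (p : ℕ) (G Y P : Subgroup Γ) (f : MonoidAlgebra k Γ) : Prop :=
  ∃ n : ℕ, 1 ≤ n ∧ Faithful p G Y P f n ∧ index Y P f < p ^ (n + 1) ∧
    ∀ z ∈ ZenE G Y P f, z ^ p = 1 → z ≠ 1 → ∃ g₀ ∈ Stab Y P f z,
      ∀ g ∈ Stab Y P f z, ∃ i : ℕ, (g₀ ^ i)⁻¹ * g ∈ PC Y P

/-- Large, with trivial stabilizers or small normalizers of the lines. -/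
def SmallLines (p : ℕ) (G Y P : Subgroup Γ) (f : MonoidAlgebra k Γ) : Prop :=
  ∃ n : ℕ, 1 ≤ n ∧ Faithful p G Y P f n ∧ index Y P f < p ^ (n + 1) ∧
    ∀ z ∈ ZenE G Y P f, z ^ p = 1 → z ≠ 1 → (PC Y P).relIndex (Stab Y P f z) = 1 ∨
      (PC Y P).relIndex (LineStab Y P f z) + 1 < p

/-- Large, with small stabilizers. -/
def SmallStabs (p : ℕ) (G Y P V : Subgroup Γ) (f : MonoidAlgebra k Γ) : Prop :=
  ∃ n r j : ℕ, Faithful p G Y P f n ∧ index Y P f ≤ p ^ n ∧ RankLe p V r ∧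
    (∀ z ∈ ZenE G Y P f, z ^ p = 1 → z ≠ 1 → (PC Y P).relIndex (Stab Y P f z) ≤ p ^ j) ∧
    (r - 2) * j + 3 ≤ n

/-- The block of `Y` with idempotent `e` is large: one of the conditions holds for a defect group
`P` and a block `f` of the centralizer of `P` in `Y` with `Br_P(e) f = f`. (All such pairs are
conjugate in `Y`.) -/
def Large (p : ℕ) (G Y V : Subgroup Γ) (e : MonoidAlgebra k Γ) : Prop :=
  ∃ (P : Subgroup Γ) (f : MonoidAlgebra k Γ), IsDefectGroup p Y e P ∧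
    IsBlock (Y ⊓ Subgroup.centralizer (P : Set Γ)) f ∧
    resS (Subgroup.centralizer (P : Set Γ) : Set Γ) e * f = f ∧
    (AnyE p G Y P V f ∨ CyclicStabs p G Y P f ∨ SmallLines p G Y P f ∨ SmallStabs p G Y P V f)

theorem inertial_eq (G D : Subgroup Γ) (f : MonoidAlgebra k Γ) :
    Inertial G D f = G ⊓ Ex.St D f := by
  ext g
  have key : (∀ x : Γ, f.coeff (g * x * g⁻¹) = f.coeff x) ↔ cj g f = f := by
    constructor
    · intro h
      ext x
      rw [coeff_cj, ← h (g⁻¹ * x * g)]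
      congr 1
      group
    · intro h x
      conv_lhs => rw [← h]
      rw [coeff_cj]
      congr 1
      group
  constructor
  · rintro ⟨h1, h2, h3⟩
    exact ⟨h1, h2, key.1 h3⟩
  · rintro ⟨h1, h2, h3⟩
    exact ⟨h1, h2, key.2 h3⟩

end

/-- **Navarro's equality** for `(N, H, e)`, `G ≤ N ⊴ H`, for a block `e` of `G` with an abelian defect
group `D`, if the block `e` of `Y` is large for all `Y` between `G` and `H` with `N Y = H`. Here
`f₀` is a block of `C_G(D)` with `Br_D(e) f₀ = f₀`, `Inertial G D f₀` is `N_G(D, f₀)` and its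
commutator subgroup with `D` is `V = [D, E_G]`. -/
theorem result (p : ℕ) [Fact p.Prime] (hp2 : p ≠ 2) (k : Type v) [Field k] [IsAlgClosed k]
    [CharP k p] (Γ : Type u) [Group Γ] [Finite Γ] (G : Subgroup Γ) [G.Normal]
    (hΓ : IsPGroup p (Γ ⧸ G)) (e : MonoidAlgebra k Γ) (he : IsBlock G e)
    (hinv : ∀ g x : Γ, e.coeff (g * x * g⁻¹) = e.coeff x)
    (D : Subgroup Γ) (hD : IsDefectGroup p G e D) (hcom : ∀ x ∈ D, ∀ y ∈ D, x * y = y * x)
    (f₀ : MonoidAlgebra k Γ) (hf₀ : IsBlock (G ⊓ Subgroup.centralizer (D : Set Γ)) f₀)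
    (hef₀ : resS (Subgroup.centralizer (D : Set Γ) : Set Γ) e * f₀ = f₀)
    (N H : Subgroup Γ) (hGN : G ≤ N) (hNH : N ≤ H) (hn : H ≤ Subgroup.normalizer (N : Set Γ))
    (hlarge : ∀ Y, G ≤ Y → Y ≤ H → N ⊔ Y = H → Large p G Y ⁅D, Inertial G D f₀⁆ e) :
    NavarroEq p N H e := by
  classical
  have : Fintype Γ := Fintype.ofFinite Γ
  have hinv' : InvBy ⊤ e := fun g _ x => hinv g x
  have hp' : ∀ x : Γ, ∃ n : ℕ, x ^ p ^ n ∈ G := by
    intro x
    obtain ⟨n, hn⟩ := hΓ (QuotientGroup.mk x)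
    refine ⟨n, ?_⟩
    rwa [← QuotientGroup.mk_pow, QuotientGroup.eq_one_iff] at hn
  -- the conjugates of `D` are abelian
  have hab : ∀ D', IsDefectGroup p G e D' → ∀ x ∈ D', ∀ y ∈ D', x * y = y * x := by
    intro D' hD'
    obtain ⟨g, -, rfl⟩ := Kk.KybAux.defect_conjX he hD hD'
    intro x hx y hy
    rw [mem_cg] at hx hy
    have h1 := hcom _ hx _ hy
    calc x * y = g * ((g⁻¹ * x * g) * (g⁻¹ * y * g)) * g⁻¹ := by group
      _ = g * ((g⁻¹ * y * g) * (g⁻¹ * x * g)) * g⁻¹ := by rw [h1]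
      _ = y * x := by group
  refine Kk.nav_of_suppl hGN hNH hn hp' he hinv' fun Y hGY hYH hNY => ?_
  obtain ⟨P, f, hP, h1, h3, h2⟩ := hlarge Y hGY hYH hNY
  -- `P ∩ G` is abelian
  have hbr : HasBr (P ⊓ G) e := by
    obtain ⟨x, hx, hxe⟩ := hP.br
    exact ⟨x, Subgroup.centralizer_le (inf_le_left : P ⊓ G ≤ P) hx, hxe⟩
  obtain ⟨D', hD', hle⟩ := exists_defect (p := p) (N := G) (P := P ⊓ G) inf_le_right
    (hP.isPGroup.to_le inf_le_left) hbr
  have hcomP : ∀ x ∈ P ⊓ G, ∀ y ∈ P ⊓ G, x * y = y * x :=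
    fun x hx y hy => hab D' hD' x (hle hx) y (hle hy)
  have hpY : ∀ x ∈ Y, ∃ n : ℕ, x ^ p ^ n ∈ G := fun x _ => hp' x
  have hiY : InvBy Y e := hinv'.mono le_top
  refine Ku.nav_seenX inferInstance hGY hpY he hiY hP hcomP h1 h3 hD hf₀ hef₀ ?_
  intro B _ _ b d D₁ ι h L
  simp only [AnyE, CyclicStabs, SmallLines, SmallStabs, RankLe, ZenE, Faithful, index, PC, Stab,
    LineStab, Zen, inertial_eq, ← Ku.cmW_eq] at h2
  rcases h2 with ⟨n, hZ, h4⟩ | ⟨n, hn1, hF, hE, hcyc⟩ | ⟨n, hn1, hF, hE, hl⟩ |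
    ⟨n, r, j, hF, hE, hr, hst, hnj⟩
  · rcases h4 with ⟨h5, h6⟩ | ⟨r, s, hr, hs, h5, h6⟩
    · exact Ku.seen_z2 hp2 h L h6 h5 hZ
    · exact Ku.seen_zs hp2 h L hr hs hZ h5 h6
  · refine Ku.seen_cyc hp2 h L hn1 hE hF fun z hz hzp hz1 => ?_
    obtain ⟨g₀, hg₀, h5⟩ := hcyc z hz hzp hz1
    refine ⟨g₀, hg₀.1, Subgroup.mem_centralizer_singleton_iff.1 hg₀.2, fun g hg hgz => ?_⟩
    exact h5 g ⟨hg, Subgroup.mem_centralizer_singleton_iff.2 hgz⟩
  · exact Ku.seen_line hp2 h L hn1 hE hF hl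
  · exact Ku.seen_stab hp2 h L hr hE hst hnj hF

end Pool.Agent.Results.MP_0c8ca5_al.LargeAbelian
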