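import Mathlib
import Pool.Agent.Lib.P0c8ca5Ex.WRg

/-!
# Blocks with abelian defect groups `D` and `[D, E]` of rank two

Let `p` be odd, `Γ / G` a `p`-group and `B` a `Γ`-invariant block of `G` with idempotent `e`,
abelian defect group `D` and inertial quotient `E = N_G(D, f) / C_G(D)` such that `[D, E]` is of
rank at most two; `e` is also the idempotent of the only block of `Y` over `B` if `G ≤ Y ≤ Γ`. Let
`G ≤ N ⊴ H ≤ Γ`. For `Y` between `G` and `H` with `N Y = H` let `P` be a defect group of the block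
`e` of `Y`, `E_Y` the inertial quotient of this block, `Z_Y = Z(P) ∩ G` and `V_Y = [Z_Y, E_Y]`.
Suppose that for every such `Y` the group `V_Y` is not `C_p × C_p` (and, if `p = 3`, not
`C_3 × C_(3^a)` with `a ≥ 1`), or the order of `E_Y` is less than `p`. Then Navarro's equality holds
for `(N, H, e)`.

* `N = G`: Navarro's equality for `(G, H, B)`, if `p ≥ 5` and `V_H` is not `C_p × C_p`.
* `N = H = G`: the blockwise weight conjecture for every block with abelian defect groups `D` such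
  that `[D, E]` is of rank at most two and not `C_p × C_p`, if `p ≥ 5`.
-/

namespace Pool.Agent.Results.MP_0c8ca5_al.RankTwo

open Pool.Agent.Lib.P0c8ca5

universe u v

section
variable {k : Type v} [Field k] {Γ : Type u} [Group Γ]

/-- The inertial group: the elements of `Y` that normalize `P` and fix `f`. -/
def Inertial (Y P : Subgroup Γ) (f : MonoidAlgebra k Γ) : Subgroup Γ where
  carrier := {g | g ∈ Y ∧ g ∈ Subgroup.normalizer (P : Set Γ) ∧
    ∀ x : Γ, f.coeff (g * x * g⁻¹) = f.coeff x}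
  mul_mem' := by
    rintro a b ⟨ha, ha1, ha2⟩ ⟨hb, hb1, hb2⟩
    refine ⟨mul_mem ha hb, mul_mem ha1 hb1, fun x => ?_⟩
    rw [← hb2 x, ← ha2 (b * x * b⁻¹)]
    congr 1
    group
  one_mem' := ⟨one_mem _, one_mem _, fun x => by simp⟩
  inv_mem' := by
    rintro a ⟨ha, ha1, ha2⟩
    refine ⟨inv_mem ha, inv_mem ha1, fun x => ?_⟩
    rw [← ha2 (a⁻¹ * x * a⁻¹⁻¹)]
    congr 1
    group

/-- The inertial index: the index of `P C_Y(P)` in the inertial group. -/
noncomputable def index (Y P : Subgroup Γ) (f : MonoidAlgebra k Γ) : ℕ :=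
  (P ⊔ (Y ⊓ Subgroup.centralizer (P : Set Γ))).relIndex (Inertial Y P f)

/-- `(P, f)` is a maximal pair of the block `e` of `Y`: `P` is a defect group and `f` is a block of
the centralizer of `P` in `Y` with `Br_P(e) f = f`. (All such pairs are conjugate in `Y`.) -/
def MaxPair (p : ℕ) (Y : Subgroup Γ) (e : MonoidAlgebra k Γ) (P : Subgroup Γ)
    (f : MonoidAlgebra k Γ) : Prop :=
  IsDefectGroup p Y e P ∧ IsBlock (Y ⊓ Subgroup.centralizer (P : Set Γ)) f ∧
    resS (Subgroup.centralizer (P : Set Γ) : Set Γ) e * f = f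

/-- The condition on `V = [Z_Y, E_Y]`: it is cyclic, or it is not elementary abelian and, if
`p = 3`, its elements of order `3` are cubes of elements of `V`. (`V` is abelian of rank at most two
here; so this means: `V` is not `C_p × C_p` and, if `p = 3`, it is not `C_3 × C_(3^a)` with
`a ≥ 1`.) -/
def Good (p : ℕ) (V : Subgroup Γ) : Prop :=
  IsCyclic ↥V ∨ ((∃ z ∈ V, z ^ p ≠ 1) ∧ (p = 3 → ∀ x ∈ V, x ^ 3 = 1 → ∃ z ∈ V, x = z ^ 3))

theorem inertial_eq (G D : Subgroup Γ)
    (f : MonoidAlgebra k Γ) : Inertial G D f = G ⊓ Ex.St D f := by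
  ext g
  have key : (∀ x : Γ, f.coeff (g * x * g⁻¹) = f.coeff x) ↔ cj g f = f := by
    constructor
    · intro h
      ext x
      rw [coeff_cj, ← h (g⁻¹ * x * g)]
      congr 1
      group
    · intro h x
      conv_lhs => rw [← h]
      rw [coeff_cj]
      congr 1
      group
  constructor
  · rintro ⟨h1, h2, h3⟩
    exact ⟨h1, h2, key.1 h3⟩
  · rintro ⟨h1, h2, h3⟩
    exact ⟨h1, h2, key.2 h3⟩

end

/-- **Navarro's equality** for `(N, H, e)`, `G ≤ N ⊴ H`, for a block `e` of `G` with abelian defect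
group `D` and `[D, E]` of rank at most two: if for all `Y` between `G` and `H` with `N Y = H` the
group `V_Y = [Z(P) ∩ G, E_Y]` satisfies `Good` or the inertial index of the block `e` of `Y` is less
than `p`. -/
theorem result (p : ℕ) [Fact p.Prime] (hp2 : p ≠ 2) (k : Type v) [Field k] [IsAlgClosed k]
    [CharP k p] (Γ : Type u) [Group Γ] [Finite Γ] (G : Subgroup Γ) [G.Normal]
    (hΓ : IsPGroup p (Γ ⧸ G)) (e : MonoidAlgebra k Γ) (he : IsBlock G e)
    (hinv : ∀ g x : Γ, e.coeff (g * x * g⁻¹) = e.coeff x)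
    (D : Subgroup Γ) (f : MonoidAlgebra k Γ) (hD : MaxPair p G e D f)
    (hcom : ∀ x ∈ D, ∀ y ∈ D, x * y = y * x)
    (hrank : Nat.card {x : Γ // x ∈ ⁅D, Inertial G D f⁆ ∧ x ^ p = 1} ≤ p ^ 2)
    (N H : Subgroup Γ) (hGN : G ≤ N) (hNH : N ≤ H) (hn : H ≤ Subgroup.normalizer (N : Set Γ))
    (hgood : ∀ Y, G ≤ Y → Y ≤ H → N ⊔ Y = H →
      ∃ (P : Subgroup Γ) (f' : MonoidAlgebra k Γ), MaxPair p Y e P f' ∧
        (Good p ⁅P ⊓ G ⊓ Subgroup.centralizer (P : Set Γ), Inertial Y P f'⁆ ∨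
          index Y P f' < p)) :
    NavarroEq p N H e := by
  classical
  have : Fintype Γ := Fintype.ofFinite Γ
  have hpp : p.Prime := Fact.out
  have hinv' : InvBy ⊤ e := fun g _ x => hinv g x
  have hp' : ∀ x : Γ, ∃ n : ℕ, x ^ p ^ n ∈ G := by
    intro x
    obtain ⟨n, hn⟩ := hΓ (QuotientGroup.mk x)
    refine ⟨n, ?_⟩
    rwa [← QuotientGroup.mk_pow, QuotientGroup.eq_one_iff] at hn
  obtain ⟨hD1, hD2, hD3⟩ := hD
  rw [inertial_eq] at hrank
  refine Ex.WR.nav_rank2W_all hp2 inferInstance hp' he hinv' hD1 hcom hD2 hD3 hrank hGN hNH hn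
    fun Y hGY hYH hNY => ?_
  obtain ⟨P, f', ⟨hP, h1, h2⟩, h3⟩ := hgood Y hGY hYH hNY
  refine ⟨P, f', hP, h1, h2, ?_⟩
  rw [index, inertial_eq] at h3
  rcases h3 with (h3 | ⟨h3, h4⟩) | h3
  · exact Or.inl (Or.inl h3)
  · refine Or.inl (Or.inr ⟨h3, fun hlt => ?_⟩)
    have hp3 : p = 3 := by
      have h5 := hpp.two_le
      interval_cases p
      · exact absurd rfl hp2
      · rfl
      · exact absurd hpp (by norm_num)
    subst hp3
    exact h4 rfl
  · exact Or.inr h3

end Pool.Agent.Results.MP_0c8ca5_al.RankTwo
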